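import Mathlib

/-!
# Power sums of units modulo powers of `p` and residue classes up to sign
-/

open scoped BigOperators Classical

set_option linter.unusedSectionVars false
set_option linter.unusedVariables false

noncomputable section

namespace Pool.Agent.Y360.MC

/-- a nonzero integer is divisible by only finitely many powers of `p` -/
lemma int_eq_zero {p : ℕ} (hp : 1 < p) {x : ℤ} {k : ℕ} (h : (p : ℤ) ^ (k + 1) ∣ x)
    (hx : |x| < (p : ℤ) ^ (k + 1)) : x = 0 :=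
  Int.eq_zero_of_abs_lt_dvd h hx

/-- a polynomial combination of power sums -/
lemma poly_sum {ι κ : Type} [Fintype ι] [Fintype κ] (x : ι → ℤ) (y : κ → ℤ) (M : ℤ)
    (h : ∀ m : ℕ, M ∣ (∑ i, x i ^ m) - ∑ j, y j ^ m) (Q : Polynomial ℤ) :
    M ∣ (∑ i, Q.eval (x i)) - ∑ j, Q.eval (y j) := by
  simp only [Polynomial.eval_eq_sum_range]
  rw [Finset.sum_comm, Finset.sum_comm (s := Finset.univ (α := κ)), ← Finset.sum_sub_distrib]
  refine Finset.dvd_sum fun m _ => ?_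
  rw [← Finset.mul_sum, ← Finset.mul_sum, ← mul_sub]
  exact Dvd.dvd.mul_left (h m) _

variable {p : ℕ} [hp : Fact p.Prime]

lemma zmod_eq_iff (x y : ℤ) : (x : ZMod p) = (y : ZMod p) ↔ (p : ℤ) ∣ x - y := by
  rw [eq_comm]
  rw [ZMod.intCast_eq_intCast_iff_dvd_sub]

lemma pow_pow_dvd {x y : ℤ} (h : (p : ℤ) ∣ x - y) (k : ℕ) :
    (p : ℤ) ^ (k + 1) ∣ x ^ p ^ k - y ^ p ^ k :=
  dvd_sub_pow_of_dvd_sub h k

lemma pow_dvd_mul {x y : ℤ} (h : (p : ℤ) ∣ x - y) {k n : ℕ} (hn : p ^ k ∣ n) :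
    (p : ℤ) ^ (k + 1) ∣ x ^ n - y ^ n := by
  obtain ⟨m, rfl⟩ := hn
  rw [pow_mul, pow_mul]
  exact (pow_pow_dvd h k).trans (sub_dvd_pow_sub_pow _ _ _)

/-- the residues are separated by an integral polynomial in the `p^k`-th powers -/
lemma sep_poly (c : ZMod p) (k : ℕ) : ∃ (Q : Polynomial ℤ) (D : ℤ), ¬ (p : ℤ) ∣ D ∧
    ∀ x : ℤ, (x : ZMod p) = c → (p : ℤ) ^ (k + 1) ∣ Q.eval (x ^ p ^ k) - D ∧
      ∀ x : ℤ, (x : ZMod p) ≠ c → (p : ℤ) ^ (k + 1) ∣ Q.eval (x ^ p ^ k) := by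
  set Q : Polynomial ℤ := ∏ t ∈ (Finset.univ : Finset (ZMod p)).erase c,
    (Polynomial.X - Polynomial.C (((t.val : ℕ) : ℤ) ^ p ^ k)) with hQ
  have hev : ∀ z : ℤ, Q.eval z = ∏ t ∈ (Finset.univ : Finset (ZMod p)).erase c,
      (z - (((t.val : ℕ) : ℤ) ^ p ^ k)) := by
    intro z
    rw [hQ, Polynomial.eval_prod]
    simp only [Polynomial.eval_sub, Polynomial.eval_X, Polynomial.eval_C]
  refine ⟨Q, Q.eval ((((c.val : ℕ) : ℤ)) ^ p ^ k), ?_, ?_⟩
  · rw [hev]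
    intro hd
    obtain ⟨t, ht, h1⟩ := (Nat.prime_iff_prime_int.mp hp.out).exists_mem_finset_dvd hd
    have h2 : (((((c.val : ℕ) : ℤ)) ^ p ^ k : ℤ) : ZMod p) = ((((t.val : ℕ) : ℤ) ^ p ^ k : ℤ) : ZMod p) :=
      (zmod_eq_iff _ _).mpr h1
    push_cast at h2
    rw [ZMod.natCast_zmod_val, ZMod.natCast_zmod_val, ZMod.pow_card_pow, ZMod.pow_card_pow] at h2
    exact (Finset.mem_erase.mp ht).1 h2.symm
  · intro x hx
    constructor
    · refine dvd_trans ?_ (Polynomial.sub_dvd_eval_sub _ _ Q)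
      apply pow_pow_dvd
      rw [← zmod_eq_iff, hx]
      simp
    · intro x hx
      rw [hev]
      have hm : ((x : ZMod p)) ∈ (Finset.univ : Finset (ZMod p)).erase c :=
        Finset.mem_erase.mpr ⟨hx, Finset.mem_univ _⟩
      refine dvd_trans ?_ (Finset.dvd_prod_of_mem _ hm)
      apply pow_pow_dvd
      rw [← zmod_eq_iff]
      simp

/-- the number of `i` with `u i` in a given class, modulo `p^(k+1)` -/
lemma fiber_dvd {ι κ : Type} [Fintype ι] [Fintype κ] (x : ι → ℤ) (y : κ → ℤ) (k : ℕ)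
    (h : ∀ m : ℕ, (p : ℤ) ^ (k + 1) ∣ (∑ i, x i ^ (m * p ^ k)) - ∑ j, y j ^ (m * p ^ k))
    (c : ZMod p) :
    (p : ℤ) ^ (k + 1) ∣ ((Fintype.card {i // (x i : ZMod p) = c} : ℕ) : ℤ) -
      ((Fintype.card {j // (y j : ZMod p) = c} : ℕ) : ℤ) := by
  obtain ⟨Q, D, hD, hQ⟩ := sep_poly (p := p) c k
  have hQ1 : ∀ x : ℤ, (x : ZMod p) = c → (p : ℤ) ^ (k + 1) ∣ Q.eval (x ^ p ^ k) - D :=
    fun x hx => (hQ x hx).1
  have hQ2 : ∀ x : ℤ, (x : ZMod p) ≠ c → (p : ℤ) ^ (k + 1) ∣ Q.eval (x ^ p ^ k) := by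
    intro z hz
    exact (hQ ((c.val : ℕ) : ℤ) (by simp)).2 z hz
  have h1 : ∀ {α : Type} [Fintype α] (z : α → ℤ), (p : ℤ) ^ (k + 1) ∣
      (∑ i, Q.eval (z i ^ p ^ k)) - ((Fintype.card {i // (z i : ZMod p) = c} : ℕ) : ℤ) * D := by
    intro α _ z
    have h2 : ((Fintype.card {i // (z i : ZMod p) = c} : ℕ) : ℤ) * D =
        ∑ i, if (z i : ZMod p) = c then D else 0 := by
      rw [Fintype.card_subtype, ← Finset.sum_filter, Finset.sum_const, nsmul_eq_mul]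
    rw [h2, ← Finset.sum_sub_distrib]
    refine Finset.dvd_sum fun i _ => ?_
    by_cases hi : (z i : ZMod p) = c
    · rw [if_pos hi]
      exact hQ1 _ hi
    · rw [if_neg hi, sub_zero]
      exact hQ2 _ hi
  have h3 := poly_sum (fun i => x i ^ p ^ k) (fun j => y j ^ p ^ k) ((p : ℤ) ^ (k + 1))
    (fun m => by
      have := h m
      simp only [← pow_mul, mul_comm (p ^ k) m]
      exact this) Q
  have h4 := dvd_sub (dvd_sub h3 (h1 x)) (dvd_neg.mpr (h1 y))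
  have h5 : (p : ℤ) ^ (k + 1) ∣ (((Fintype.card {i // (x i : ZMod p) = c} : ℕ) : ℤ) -
      ((Fintype.card {j // (y j : ZMod p) = c} : ℕ) : ℤ)) * D := by
    have h6 : ∀ A B N₁ N₂ : ℤ, (N₁ - N₂) * D = A - B - (A - N₁ * D) - -(B - N₂ * D) := by
      intro A B N₁ N₂
      ring
    rw [h6 (∑ i, Q.eval (x i ^ p ^ k)) (∑ j, Q.eval (y j ^ p ^ k))]
    exact h4
  have hcop : IsCoprime ((p : ℤ) ^ (k + 1)) D := by
    apply IsCoprime.pow_left
    exact (Prime.coprime_iff_not_dvd (Nat.prime_iff_prime_int.mp hp.out)).mpr hD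
  exact hcop.dvd_of_dvd_mul_right h5

/-- if the power sums agree to precision exceeding the sizes, there is a bijection preserving
residues -/
lemma exists_equiv {ι κ : Type} [Fintype ι] [Fintype κ] (x : ι → ℤ) (y : κ → ℤ) (k : ℕ)
    (hι : Fintype.card ι < p ^ (k + 1)) (hκ : Fintype.card κ < p ^ (k + 1))
    (h : ∀ m : ℕ, (p : ℤ) ^ (k + 1) ∣ (∑ i, x i ^ (m * p ^ k)) - ∑ j, y j ^ (m * p ^ k)) :
    ∃ e : ι ≃ κ, ∀ i, (p : ℤ) ∣ x i - y (e i) := by
  have hc : ∀ c : ZMod p, Nonempty ({i // (x i : ZMod p) = c} ≃ {j // (y j : ZMod p) = c}) := by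
    intro c
    rw [← Fintype.card_eq]
    have h1 := fiber_dvd x y k h c
    have h2 : Fintype.card {i // (x i : ZMod p) = c} < p ^ (k + 1) :=
      (Fintype.card_subtype_le _).trans_lt hι
    have h3 : Fintype.card {j // (y j : ZMod p) = c} < p ^ (k + 1) :=
      (Fintype.card_subtype_le _).trans_lt hκ
    have h4 : ((Fintype.card {i // (x i : ZMod p) = c} : ℕ) : ℤ) -
      ((Fintype.card {j // (y j : ZMod p) = c} : ℕ) : ℤ) = 0 := by
      apply Int.eq_zero_of_abs_lt_dvd h1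
      have h5 : ((Fintype.card {i // (x i : ZMod p) = c} : ℕ) : ℤ) < (p : ℤ) ^ (k + 1) := by
        exact_mod_cast h2
      have h6 : ((Fintype.card {j // (y j : ZMod p) = c} : ℕ) : ℤ) < (p : ℤ) ^ (k + 1) := by
        exact_mod_cast h3
      rw [abs_lt]
      constructor <;> omega
    have := sub_eq_zero.mp h4
    exact_mod_cast this
  refine ⟨Equiv.ofFiberEquiv (f := fun i => (x i : ZMod p)) (g := fun j => (y j : ZMod p))
    (fun c => (hc c).some), fun i => ?_⟩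
  rw [← zmod_eq_iff]
  exact (Equiv.ofFiberEquiv_map (f := fun i => (x i : ZMod p)) (g := fun j => (y j : ZMod p))
    (fun c => (hc c).some) i).symm

/-- a bijection preserving residues gives congruences of power sums -/
lemma sum_dvd {ι κ : Type} [Fintype ι] [Fintype κ] (x : ι → ℤ) (y : κ → ℤ) (e : ι ≃ κ)
    (he : ∀ i, (p : ℤ) ∣ x i - y (e i)) {k n : ℕ} (hn : p ^ k ∣ n) :
    (p : ℤ) ^ (k + 1) ∣ (∑ i, x i ^ n) - ∑ j, y j ^ n := by
  rw [← e.sum_comp, ← Finset.sum_sub_distrib]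
  exact Finset.dvd_sum fun i _ => pow_dvd_mul (he i) hn

end Pool.Agent.Y360.MC
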