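import Pool.Agent.Y63.KR.Dade
import Pool.Agent.Y360.MC.Comb

/-!
# Characters of degree prime to `p` and numbers of homomorphisms from surface groups
-/

open scoped BigOperators Classical
open Pool.Agent.Helper884.IC Pool.Agent.Y63.AWC Pool.Agent.Y63.KR

set_option linter.unusedSectionVars false
set_option linter.unusedVariables false
set_option linter.style.haveILetI false

noncomputable section

namespace Pool.Agent.Y360.MC

/-- `Irr_{p'}(H)`: the irreducible complex characters of `H` of degree not divisible by `p` -/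
def IrrPrime (p : ℕ) (H : Type) [Group H] : Type :=
  {χ : H → ℂ // IsIrreducibleCharacter χ ∧ ∃ n : ℕ, χ 1 = (n : ℂ) ∧ ¬ p ∣ n}

/-- The properties which determine the slopes `f d n` of `H` at `p`: the number of homomorphisms
from the surface group of genus `n + 1` to `H` is `|H| f 0 n`, and
`p^(2n) f (d+1) n` is the `p`-adic limit of `f d n - f d (n + (p-1) p^k)`, `k → ∞`, with the
stated rate of convergence. -/
def IsSlopes (p : ℕ) (H : Type) [Group H] (f : ℕ → ℕ → ℤ) : Prop :=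
  (∀ n : ℕ, (numHom (n + 1) H : ℤ) = (Nat.card H : ℤ) * f 0 n) ∧
  ∀ d n k : ℕ, (p : ℤ) ^ (k + 1) ∣
    f d n - f d (n + (p - 1) * p ^ k) - (p : ℤ) ^ (2 * n) * f (d + 1) n

variable {p : ℕ} [hp : Fact p.Prime]

section

variable {H : Type} [Group H] [Fintype H]

theorem isSlopes_slope : IsSlopes p H (fun d n => slope p d n H) := by
  constructor
  · intro n
    change _ = _ * slope p 0 n H
    rw [slope_zero, numHom_zsum]
    push_cast
    rfl
  · intro d n k
    exact slope_dvd d n k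

theorem isSlopes_unique {f g : ℕ → ℕ → ℤ} (hf : IsSlopes p H f) (hg : IsSlopes p H g) :
    f = g := by
  have hc : (Nat.card H : ℤ) ≠ 0 := by exact_mod_cast Nat.card_pos.ne'
  have key : ∀ d n, f d n = g d n := by
    intro d
    induction d with
    | zero =>
      intro n
      exact mul_left_cancel₀ hc ((hf.1 n).symm.trans (hg.1 n))
    | succ d ih =>
      intro n
      have h1 : (p : ℤ) ^ (2 * n) * (f (d + 1) n - g (d + 1) n) = 0 := by
        apply eq_zero_of_pow_dvd (p := p)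
        intro k
        have h2 := hf.2 d n k
        have h3 := hg.2 d n k
        rw [ih n, ih (n + (p - 1) * p ^ k)] at h2
        have h4 := dvd_sub h3 h2
        rwa [sub_sub_sub_cancel_left, ← mul_sub] at h4
      rcases mul_eq_zero.mp h1 with h2 | h2
      · exact absurd h2 (pow_ne_zero _ (by exact_mod_cast hp.out.ne_zero))
      · exact sub_eq_zero.mp h2
  funext d n
  exact key d n

/-- the part of `|H| / χ(1)` prime to `p` -/
def un (p : ℕ) (chi : H → ℂ) : ℕ := cod chi / p ^ (Nat.card H).factorization p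

lemma pow_dvd_cod_iff {chi : H → ℂ} (h : IsIrrChar chi) :
    p ^ (Nat.card H).factorization p ∣ cod chi ↔ ¬ p ∣ dg chi := by
  obtain ⟨-, h3⟩ := dg_spec h
  have h4 := cod_pos h
  have h5 : (Nat.card H).factorization p =
      (dg chi).factorization p + (cod chi).factorization p := by
    conv_lhs => rw [← cod_spec h, Nat.factorization_mul h3.ne' h4.ne']
    rfl
  rw [hp.out.pow_dvd_iff_le_factorization h4.ne', h5]
  constructor
  · intro h6 h7
    have := hp.out.factorization_pos_of_dvd h3.ne' h7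
    omega
  · intro h6
    have := Nat.factorization_eq_zero_of_not_dvd h6
    omega

lemma un_mul {chi : H → ℂ} (h : IsIrrChar chi) (h' : ¬ p ∣ dg chi) :
    un p chi * dg chi = Nat.card H / p ^ (Nat.card H).factorization p := by
  have h1 := (pow_dvd_cod_iff (p := p) h).mpr h'
  unfold un
  have h3 := cod_spec h
  obtain ⟨m, hm⟩ := h1
  generalize (Nat.card H).factorization p = v at *
  have h2 : Nat.card H = p ^ v * (m * dg chi) := by
    rw [← h3, hm]
    ring
  rw [hm, Nat.mul_div_cancel_left _ (pow_pos hp.out.pos _), h2,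
    Nat.mul_div_cancel_left _ (pow_pos hp.out.pos _)]

lemma not_dvd_compl : ¬ p ∣ Nat.card H / p ^ (Nat.card H).factorization p :=
  Nat.not_dvd_ordCompl hp.out Nat.card_pos.ne'

lemma not_dvd_un {chi : H → ℂ} (h : IsIrrChar chi) (h' : ¬ p ∣ dg chi) : ¬ p ∣ un p chi := by
  intro h1
  apply not_dvd_compl (p := p) (H := H)
  rw [← un_mul h h']
  exact Dvd.dvd.mul_right h1 _

omit [Fintype H] in
lemma prime_iff {chi : H → ℂ} [Fintype H] (h : IsIrrChar chi) :
    (∃ n : ℕ, chi 1 = (n : ℂ) ∧ ¬ p ∣ n) ↔ ¬ p ∣ dg chi := by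
  obtain ⟨h2, -⟩ := dg_spec h
  constructor
  · rintro ⟨n, hn, h3⟩
    have : n = dg chi := by
      rw [h2] at hn
      exact_mod_cast hn.symm
    rwa [this] at h3
  · intro h3
    exact ⟨_, h2, h3⟩

instance : Finite (IrrPrime p H) := by
  have : Function.Injective (fun χ : IrrPrime p H =>
      (⟨χ.1, mem_Irr.mpr χ.2.1⟩ : {χ : H → ℂ // χ ∈ Irr H})) := by
    intro a b hab
    exact Subtype.ext (Subtype.mk.inj hab)
  exact Finite.of_injective _ this

instance : Fintype (IrrPrime p H) := Fintype.ofFinite _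

/-- the last slope is a power sum over `Irr_{p'}` -/
theorem slope_top (n : ℕ) :
    slope p ((Nat.card H).factorization p) n H =
      ∑ χ : IrrPrime p H, (((un p χ.1 : ℕ) : ℤ) ^ 2) ^ n := by
  unfold Y63.KR.slope
  symm
  refine Finset.sum_bij (fun χ _ => χ.1) ?_ ?_ ?_ ?_
  · intro χ _
    rw [Finset.mem_filter, mem_Irr]
    exact ⟨χ.2.1, (pow_dvd_cod_iff χ.2.1).mpr ((prime_iff (p := p) χ.2.1).mp χ.2.2)⟩
  · intro a _ b _ hab
    exact Subtype.ext hab
  · intro chi hchi
    rw [Finset.mem_filter, mem_Irr] at hchi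
    exact ⟨⟨chi, hchi.1, (prime_iff hchi.1).mpr ((pow_dvd_cod_iff hchi.1).mp hchi.2)⟩,
      Finset.mem_univ _, rfl⟩
  · intro χ _
    unfold un
    rw [← pow_mul]

theorem card_IrrPrime {f : ℕ → ℕ → ℤ} (hf : IsSlopes p H f) :
    (Nat.card (IrrPrime p H) : ℤ) = f ((Nat.card H).factorization p) 0 := by
  rw [isSlopes_unique hf isSlopes_slope]
  change _ = slope p ((Nat.card H).factorization p) 0 H
  rw [slope_top]
  simp

lemma card_Irr_le : (Irr H).card ≤ Nat.card H := by
  have h1 : numHom (0 + 1) H = Nat.card H * (Irr H).card := by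
    rw [numHom_eq]
    simp
  have h2 : numHom (0 + 1) H ≤ Nat.card H * Nat.card H := by
    unfold numHom
    have h3 : Nat.card (Fin (0 + 1) → H × H) = Nat.card H * Nat.card H := by
      simp [Nat.card_eq_fintype_card]
    rw [← h3]
    exact Nat.card_le_card_of_injective _ Subtype.val_injective
  rw [h1] at h2
  exact Nat.le_of_mul_le_mul_left h2 Nat.card_pos

lemma card_IrrPrime_le : Fintype.card (IrrPrime p H) ≤ Nat.card H := by
  refine le_trans ?_ (card_Irr_le (H := H))
  rw [← Fintype.card_coe]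
  exact Fintype.card_le_of_injective (fun χ : IrrPrime p H =>
      (⟨χ.1, mem_Irr.mpr χ.2.1⟩ : {χ : H → ℂ // χ ∈ Irr H})) (by
    intro a b hab
    exact Subtype.ext (Subtype.mk.inj hab))

end

section

variable {G : Type} [Group G] [Finite G]

lemma factorization_normalizer (P : Sylow p G) :
    (Nat.card (Subgroup.normalizer (P : Set G))).factorization p =
      (Nat.card G).factorization p := by
  have h1 : Nat.card (P : Subgroup G) = p ^ (Nat.card G).factorization p :=
    P.card_eq_multiplicity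
  have h2 : Nat.card (P : Subgroup G) ∣ Nat.card (Subgroup.normalizer (P : Set G)) :=
    Subgroup.card_dvd_of_le Subgroup.le_normalizer
  have h3 : Nat.card (Subgroup.normalizer (P : Set G)) ∣ Nat.card G :=
    Subgroup.card_subgroup_dvd_card _
  have h4 : Nat.card (Subgroup.normalizer (P : Set G)) ≠ 0 := Nat.card_pos.ne'
  have h5 : Nat.card G ≠ 0 := Nat.card_pos.ne'
  rw [h1] at h2
  apply le_antisymm
  · exact (Nat.factorization_le_iff_dvd h4 h5).mpr h3 p
  · exact (hp.out.pow_dvd_iff_le_factorization h4).mp h2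

lemma compl_modEq (P : Sylow p G) :
    Nat.card G / p ^ (Nat.card G).factorization p ≡
      Nat.card (Subgroup.normalizer (P : Set G)) /
        p ^ (Nat.card (Subgroup.normalizer (P : Set G))).factorization p [MOD p] := by
  have h1 := card_sylow_modEq_one p G
  rw [P.card_eq_index_normalizer] at h1
  have h2 := (Subgroup.normalizer (P : Set G)).card_mul_index
  rw [factorization_normalizer P]
  obtain ⟨m, hm⟩ : p ^ (Nat.card G).factorization p ∣
      Nat.card (Subgroup.normalizer (P : Set G)) := by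
    rw [← factorization_normalizer P]
    exact Nat.ordProj_dvd _ _
  have h3 : Nat.card G / p ^ (Nat.card G).factorization p =
      m * (Subgroup.normalizer (P : Set G)).index := by
    conv_lhs =>
      arg 1
      rw [← h2, hm, mul_assoc]
    rw [Nat.mul_div_cancel_left _ (pow_pos hp.out.pos _)]
  rw [h3]
  conv_rhs => rw [hm]
  rw [Nat.mul_div_cancel_left _ (pow_pos hp.out.pos _)]
  simpa using Nat.ModEq.mul_left m h1

/-- `χ(1) ≡ ± ψ(1)` in terms of the units `|H|_{p'}/χ(1)` -/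
lemma deg_iff {u v m n A B : ℕ} (hA : ¬ p ∣ A) (hAB : A ≡ B [MOD p]) (h1 : u * m = A)
    (h2 : v * n = B) :
    ((p : ℤ) ∣ (m : ℤ) - n ∨ (p : ℤ) ∣ (m : ℤ) + n) ↔ (p : ℤ) ∣ (u : ℤ) ^ 2 - (v : ℤ) ^ 2 := by
  have hA' : ((A : ℕ) : ZMod p) ≠ 0 := by
    rw [Ne, ZMod.natCast_eq_zero_iff]
    exact hA
  have e1 : ((u : ℕ) : ZMod p) * m = A := by rw [← h1]; push_cast; rfl
  have e2 : ((v : ℕ) : ZMod p) * n = A := by
    rw [(ZMod.natCast_eq_natCast_iff _ _ _).mpr hAB, ← h2]; push_cast; rfl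
  have c1 : (p : ℤ) ∣ (m : ℤ) - n ↔ ((m : ℕ) : ZMod p) = n := by
    rw [← zmod_eq_iff]; push_cast; rfl
  have c2 : (p : ℤ) ∣ (m : ℤ) + n ↔ ((m : ℕ) : ZMod p) = -n := by
    rw [← sub_neg_eq_add, ← zmod_eq_iff]; push_cast; rfl
  have c3 : (p : ℤ) ∣ (u : ℤ) ^ 2 - (v : ℤ) ^ 2 ↔ ((u : ℕ) : ZMod p) ^ 2 = (v : ZMod p) ^ 2 := by
    rw [← zmod_eq_iff]; push_cast; rfl
  rw [c1, c2, c3, sq_eq_sq_iff_eq_or_eq_neg]
  generalize ((u : ℕ) : ZMod p) = U at *
  generalize ((v : ℕ) : ZMod p) = V at *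
  generalize ((m : ℕ) : ZMod p) = M at *
  generalize ((n : ℕ) : ZMod p) = N at *
  generalize ((A : ℕ) : ZMod p) = a at *
  have hM : M ≠ 0 := by rintro rfl; rw [mul_zero] at e1; exact hA' e1.symm
  have hN : N ≠ 0 := by rintro rfl; rw [mul_zero] at e2; exact hA' e2.symm
  have hU : U ≠ 0 := by rintro rfl; rw [zero_mul] at e1; exact hA' e1.symm
  constructor
  · rintro (h | h)
    · left
      apply mul_right_cancel₀ hM
      rw [e1, h, e2]
    · right
      apply mul_right_cancel₀ hM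
      rw [e1, h, neg_mul_neg, e2]
  · rintro (h | h)
    · left
      apply mul_left_cancel₀ hU
      rw [e1, h, e2]
    · right
      apply mul_left_cancel₀ hU
      rw [e1, mul_neg, ← neg_mul, h, neg_neg, e2]

/-- The statement of the question for `G` and `P`. -/
def HasBijection (p : ℕ) (G : Type) [Group G] (P : Sylow p G) : Prop :=
  ∃ F : IrrPrime p G ≃ IrrPrime p (Subgroup.normalizer (P : Set G)),
    ∀ (χ : IrrPrime p G) (m n : ℕ), χ.1 1 = (m : ℂ) → (F χ).1 1 = (n : ℂ) →
      ((p : ℤ) ∣ (m : ℤ) - n ∨ (p : ℤ) ∣ (m : ℤ) + n)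

lemma hasBijection_iff [Fintype G] (P : Sylow p G) [Fintype (Subgroup.normalizer (P : Set G))] :
    HasBijection p G P ↔ ∃ F : IrrPrime p G ≃ IrrPrime p (Subgroup.normalizer (P : Set G)),
      ∀ χ : IrrPrime p G,
        (p : ℤ) ∣ ((un p χ.1 : ℕ) : ℤ) ^ 2 - ((un p (F χ).1 : ℕ) : ℤ) ^ 2 := by
  unfold HasBijection
  refine exists_congr fun F => forall_congr' fun χ => ?_
  have k1 := (prime_iff (p := p) χ.2.1).mp χ.2.2
  have k2 := (prime_iff (p := p) (F χ).2.1).mp (F χ).2.2
  have h := deg_iff (p := p) (not_dvd_compl (p := p) (H := G)) (compl_modEq P)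
    (un_mul (p := p) χ.2.1 k1) (un_mul (p := p) (F χ).2.1 k2)
  have d1 := (dg_spec (chi := χ.1) χ.2.1).1
  have d2 := (dg_spec (chi := (F χ).1) (F χ).2.1).1
  rw [← h]
  constructor
  · intro h1
    exact h1 _ _ d1 d2
  · intro h1 m n hm hn
    have e1 : m = dg χ.1 := by
      rw [d1] at hm
      exact_mod_cast hm.symm
    have e2 : n = dg (F χ).1 := by
      rw [d2] at hn
      exact_mod_cast hn.symm
    rw [e1, e2]
    exact h1

/-- the congruences -/
theorem dvd_of_hasBijection (P : Sylow p G) {f g : ℕ → ℕ → ℤ} (hf : IsSlopes p G f)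
    (hg : IsSlopes p (Subgroup.normalizer (P : Set G)) g) (h : HasBijection p G P) {k n : ℕ}
    (hn : p ^ k ∣ n) :
    (p : ℤ) ^ (k + 1) ∣ f ((Nat.card G).factorization p) n -
      g ((Nat.card G).factorization p) n := by
  letI : Fintype G := Fintype.ofFinite G
  letI : Fintype (Subgroup.normalizer (P : Set G)) := Fintype.ofFinite _
  obtain ⟨F, hF⟩ := (hasBijection_iff P).mp h
  rw [isSlopes_unique hf isSlopes_slope, isSlopes_unique hg isSlopes_slope]
  change _ ∣ slope p ((Nat.card G).factorization p) n G -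
    slope p ((Nat.card G).factorization p) n (Subgroup.normalizer (P : Set G))
  rw [slope_top]
  conv_rhs =>
    rw [← factorization_normalizer P]
  rw [slope_top]
  exact sum_dvd _ _ F hF hn

/-- powers with exponent `2 h p^K`, where `p - 1 ∣ 2 h`, are trivial -/
lemma unit_pow' {x : ℤ} (hx : ¬ (p : ℤ) ∣ x) {h : ℕ} (hh : p - 1 ∣ 2 * h) (K q : ℕ) :
    (p : ℤ) ^ (K + 1) ∣ (x ^ 2) ^ (h * q * p ^ K) - 1 := by
  have h1 : (p : ℤ) ∣ (x ^ 2) ^ (h * q) - 1 := by
    rw [← zmod_eq_iff]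
    push_cast
    obtain ⟨c, hc⟩ := hh
    rw [← pow_mul, show 2 * (h * q) = (p - 1) * (c * q) by rw [← mul_assoc, hc, mul_assoc],
      pow_mul, ZMod.pow_card_sub_one_eq_one, one_pow]
    rw [Ne, ZMod.intCast_zmod_eq_zero_iff_dvd] at *
    exact hx
  have h2 := pow_pow_dvd h1 K
  rwa [one_pow, ← pow_mul] at h2

theorem hasBijection_of_dvd (P : Sylow p G) {f g : ℕ → ℕ → ℤ} (hf : IsSlopes p G f)
    (hg : IsSlopes p (Subgroup.normalizer (P : Set G)) g) (K : ℕ) (hK : Nat.card G < p ^ (K + 1))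
    (h : ∀ m : ℕ, 2 * m + 2 ≤ p → (p : ℤ) ^ (K + 1) ∣
      f ((Nat.card G).factorization p) (m * p ^ K) -
        g ((Nat.card G).factorization p) (m * p ^ K)) :
    HasBijection p G P := by
  letI : Fintype G := Fintype.ofFinite G
  letI : Fintype (Subgroup.normalizer (P : Set G)) := Fintype.ofFinite _
  rw [hasBijection_iff]
  have hsum : ∀ n : ℕ, f ((Nat.card G).factorization p) n - g ((Nat.card G).factorization p) n =
      (∑ χ : IrrPrime p G, (((un p χ.1 : ℕ) : ℤ) ^ 2) ^ n) -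
      ∑ χ : IrrPrime p (Subgroup.normalizer (P : Set G)), (((un p χ.1 : ℕ) : ℤ) ^ 2) ^ n := by
    intro n
    rw [isSlopes_unique hf isSlopes_slope, isSlopes_unique hg isSlopes_slope]
    change slope p ((Nat.card G).factorization p) n G -
      slope p ((Nat.card G).factorization p) n (Subgroup.normalizer (P : Set G)) = _
    rw [slope_top]
    conv_lhs =>
      rw [← factorization_normalizer P]
    rw [slope_top]
  have hN : Nat.card (Subgroup.normalizer (P : Set G)) ≤ Nat.card G :=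
    Nat.card_le_card_of_injective _ Subtype.val_injective
  apply exists_equiv (p := p) (fun χ : IrrPrime p G => ((un p χ.1 : ℕ) : ℤ) ^ 2)
    (fun χ : IrrPrime p (Subgroup.normalizer (P : Set G)) => ((un p χ.1 : ℕ) : ℤ) ^ 2) K
    (card_IrrPrime_le.trans_lt hK) ((card_IrrPrime_le.trans hN).trans_lt hK)
  -- the period
  obtain ⟨d, hd0, hdp, hd⟩ : ∃ d : ℕ, 0 < d ∧ 2 * d ≤ p ∧ p - 1 ∣ 2 * d := by
    rcases hp.out.eq_two_or_odd' with h2 | ⟨c, hc⟩
    · exact ⟨1, one_pos, by omega, by rw [h2]; norm_num⟩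
    · have := hp.out.two_le
      exact ⟨c, by omega, by omega, ⟨1, by omega⟩⟩
  intro m
  have hred : ∀ {α : Type} [Fintype α] (z : α → ℕ), (∀ i, ¬ p ∣ z i) → (p : ℤ) ^ (K + 1) ∣
      (∑ i, (((z i : ℕ) : ℤ) ^ 2) ^ (m * p ^ K)) -
        ∑ i, (((z i : ℕ) : ℤ) ^ 2) ^ ((m % d) * p ^ K) := by
    intro α _ z hz
    rw [← Finset.sum_sub_distrib]
    refine Finset.dvd_sum fun i _ => ?_
    have e : m * p ^ K = d * (m / d) * p ^ K + (m % d) * p ^ K := by
      rw [← add_mul, Nat.div_add_mod]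
    rw [e, pow_add (((z i : ℕ) : ℤ) ^ 2)]
    have h1 := unit_pow' (p := p) (x := ((z i : ℕ) : ℤ)) (by exact_mod_cast hz i) hd K (m / d)
    have h2 : ((((z i : ℕ) : ℤ) ^ 2) ^ (d * (m / d) * p ^ K)) * ((((z i : ℕ) : ℤ) ^ 2) ^ (m % d * p ^ K))
        - (((z i : ℕ) : ℤ) ^ 2) ^ (m % d * p ^ K) =
        ((((z i : ℕ) : ℤ) ^ 2) ^ (d * (m / d) * p ^ K) - 1) *
          (((z i : ℕ) : ℤ) ^ 2) ^ (m % d * p ^ K) := by ring
    rw [h2]
    exact Dvd.dvd.mul_right h1 _
  have hm : 2 * (m % d) + 2 ≤ p := by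
    have := Nat.mod_lt m hd0
    omega
  have h1 := h (m % d) hm
  rw [hsum] at h1
  have h2 := hred (fun χ : IrrPrime p G => un p χ.1)
    (fun χ => not_dvd_un χ.2.1 ((prime_iff (p := p) χ.2.1).mp χ.2.2))
  have h3 := hred (fun χ : IrrPrime p (Subgroup.normalizer (P : Set G)) => un p χ.1)
    (fun χ => not_dvd_un χ.2.1 ((prime_iff (p := p) χ.2.1).mp χ.2.2))
  have h4 := dvd_sub (dvd_add h1 h2) h3
  have h5 : ∀ a b c d : ℤ, b - d = a - c + (b - a) - (d - c) := by intro a b c d; ring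
  rw [h5 (∑ χ : IrrPrime p G, (((un p χ.1 : ℕ) : ℤ) ^ 2) ^ (m % d * p ^ K)) _
    (∑ χ : IrrPrime p (Subgroup.normalizer (P : Set G)),
      (((un p χ.1 : ℕ) : ℤ) ^ 2) ^ (m % d * p ^ K)) _]
  exact h4

end

end Pool.Agent.Y360.MC
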